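import Pool.Agent.H17.PLD.FIN
import Pool.Agent.H30.PL.LGT
import Pool.Agent.H30.PL.NBX
import Pool.Agent.H35.PLD.DEN
import Pool.Agent.H37.PL.GAP
import Pool.Agent.H37.PL.GCF
import Pool.Agent.H46.PL.CHB
import Pool.Agent.H49.PLD.FMN
import Pool.Agent.H49.PLD.PTN
import Pool.Agent.H55.PL.DVT
import Pool.Agent.H57.PL.MR2
import Pool.Agent.H57.PL.NOF
import Pool.Agent.H57.PL.SMO
import Pool.Agent.H59.PLD.CNT
import Pool.Agent.H59.PLD.MR1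
import Pool.Agent.H59.PLD.SUM
import Pool.Agent.H64.PLD.GDJ
import Pool.Agent.H64.PLD.SQF
import Pool.Agent.H67.PLD.CEL
import Pool.Agent.H69.PLD.ZBL
import Pool.Agent.H69.PLD.ZBS
import Pool.Agent.H72.PLD.SRS
import Pool.Agent.H73.PL.LCY
import Pool.Agent.H8.PL.BOX
import Pool.Agent.H80.PL.NGD
import Pool.Agent.H88.PL.HYP
import Pool.Agent.H88.PL.SEQ
import Pool.Agent.H89.PL.TRC
import Pool.Agent.H91.PL.COR
import Pool.Agent.H91.PL.LBD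
import Pool.Agent.H91.PL.NSQ
import Pool.Agent.H97.PL.CYP
import Pool.Agent.H97.PL.IND

/-!
# Squares among the primitive parts of the Pell numbers: the rows put together
-/

set_option autoImplicit false

open Pool.Agent.H23.PL

namespace Pool.Agent.H23.PL.All

theorem a_MR2 : T_MR2 :=
  Pool.Agent.H57.PL.pf_MR2

theorem a_NSQ : T_NSQ :=
  Pool.Agent.H91.PL.pf_NSQ

theorem a_DVT : T_DVT :=
  Pool.Agent.H55.PL.pf_DVT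

theorem a_SRS : T_SRS :=
  Pool.Agent.H72.PLD.pf_SRS

theorem a_CEL : T_CEL :=
  Pool.Agent.H67.PLD.pf_CEL

theorem a_LBD : T_LBD :=
  Pool.Agent.H91.PL.pf_LBD

theorem a_GCF : T_GCF :=
  Pool.Agent.H37.PL.pf_GCF

theorem a_LCY : T_LCY :=
  Pool.Agent.H73.PL.pf_LCY

theorem a_CYP : T_CYP :=
  Pool.Agent.H97.PL.pf_CYP

theorem a_PTN : T_PTN :=
  Pool.Agent.H49.PLD.pf_PTN a_CEL a_DVT

theorem a_TRC : T_TRC :=
  Pool.Agent.H89.PL.pf_TRC a_LBD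

theorem a_ZBS : T_ZBS :=
  Pool.Agent.H69.PLD.pf_ZBS

theorem a_MR1 : T_MR1 :=
  Pool.Agent.H59.PLD.pf_MR1

theorem a_HYP : T_HYP :=
  Pool.Agent.H88.PL.pf_HYP

theorem a_SQF : T_SQF :=
  Pool.Agent.H64.PLD.pf_SQF

theorem a_SEQ : T_SEQ :=
  Pool.Agent.H88.PL.pf_SEQ

theorem a_CHB : T_CHB :=
  Pool.Agent.H46.PL.pf_CHB

theorem a_ZBL : T_ZBL :=
  Pool.Agent.H69.PLD.pf_ZBL a_ZBS

theorem a_LGT : T_LGT :=
  Pool.Agent.H30.PL.pf_LGT a_MR1 a_CHB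

theorem a_GAP : T_GAP :=
  Pool.Agent.H37.PL.pf_GAP

theorem a_FMN : T_FMN :=
  Pool.Agent.H49.PLD.pf_FMN a_LCY

theorem a_COR : T_COR :=
  Pool.Agent.H91.PL.pf_COR a_SEQ a_GCF a_SRS a_TRC a_GAP a_NSQ

theorem a_BOX : T_BOX :=
  Pool.Agent.H23.PL.pf_BOX a_FMN a_CYP a_COR

theorem a_IND : T_IND :=
  Pool.Agent.H97.PL.pf_IND a_ZBS

theorem a_GDJ : T_GDJ :=
  Pool.Agent.H64.PLD.pf_GDJ a_MR1 a_MR2 a_ZBS a_ZBL

theorem a_SMO : T_SMO :=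
  Pool.Agent.H57.PL.pf_SMO a_MR1

theorem a_NOF : T_NOF :=
  Pool.Agent.H57.PL.pf_NOF a_LGT a_MR2 a_IND

theorem a_NGD : T_NGD :=
  Pool.Agent.H80.PL.pf_NGD a_LGT a_MR2 a_IND a_GDJ

theorem a_NBX : T_NBX :=
  Pool.Agent.H30.PL.pf_NBX a_BOX

theorem a_DEN : T_DEN :=
  Pool.Agent.H35.PLD.pf_DEN a_SMO a_SQF a_NOF a_NGD

theorem a_CNT : T_CNT :=
  Pool.Agent.H59.PLD.pf_CNT a_NBX a_HYP a_CEL a_PTN a_DVT

theorem a_SUM : T_SUM :=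
  Pool.Agent.H59.PLD.pf_SUM a_CNT

theorem a_FIN : T_FIN :=
  Pool.Agent.H17.PLD.pf_FIN a_SUM a_DEN

end Pool.Agent.H23.PL.All
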