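import Mathlib

/-!
# Squares among the primitive parts of the Pell numbers: density zero. Definitions and targets.
-/

set_option autoImplicit false

open Finset Polynomial

namespace Pool.Agent.H23.PL

/-! ### Definitions -/

/-- `1 + √2` -/
noncomputable def al : ℝ := 1 + √2

/-- `1 - √2` -/
noncomputable def be : ℝ := 1 - √2

lemma sq2 : √2 * √2 = (2 : ℝ) := Real.mul_self_sqrt (by norm_num)

/-- the first embedding of `ℤ[√2]` -/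
noncomputable def f1 : ℤ√2 →+* ℝ := Zsqrtd.lift ⟨√2, by rw [sq2]; norm_num⟩

/-- the second embedding of `ℤ[√2]` -/
noncomputable def f2 : ℤ√2 →+* ℝ := Zsqrtd.lift ⟨-√2, by rw [neg_mul_neg, sq2]; norm_num⟩

lemma f1_apply (z : ℤ√2) : f1 z = z.re + z.im * √2 := rfl

lemma f2_apply (z : ℤ√2) : f2 z = z.re + z.im * (-√2) := rfl

/-- the Pell numbers `u` and their primitive parts `L` -/
structure PellL (u L : ℕ → ℕ) : Prop where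
  u0 : u 0 = 0
  u1 : u 1 = 1
  us : ∀ n, u (n + 2) = 2 * u (n + 1) + u n
  pr : ∀ r, 1 ≤ r → ∏ d ∈ r.divisors, L d = u r

/-- the product of the values of `P` at the points `w i X` -/
noncomputable def GG {N : ℕ} (P : ℤ[X]) (w : Fin N → ℤ√2) : (ℤ√2)[X] :=
  ∏ i, (P.map (Int.castRingHom (ℤ√2))).comp (C (w i) * X)

/-- the polynomial `Φ_m(-z)` -/
noncomputable def PP (m : ℕ) : ℤ[X] := (cyclotomic m ℤ).comp (-X)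

/-- the constant of the main lemma -/
noncomputable def UU (E δ : ℕ) : ℝ :=
  4 * 16 ^ E * (8 * (E : ℝ)) ^ (2 * E + 1) * al ^ (5 * E * δ)

/-! ### 1. The main lemma -/

/-- SEQ. The coefficients of the square root of a power series. -/
def T_SEQ : Prop := ∀ G : ℕ → ℤ√2, G 0 = 1 → ∃ γ : ℕ → ℤ√2, γ 0 = 1 ∧
  (∀ k, ∑ ij ∈ antidiagonal k, γ ij.1 * γ ij.2 = 4 ^ k * G k) ∧
  ∀ (f : ℤ√2 →+* ℝ) (c : ℝ), (∀ k, |f (G k)| ≤ c ^ k) → ∀ k, |f (γ k)| ≤ (16 * c) ^ k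

/-- LBD. Small power sums of elements with bounded conjugates vanish. -/
def T_LBD : Prop := ∀ (J : ℕ) (B : ℕ → ℤ√2) (U x : ℝ), 0 < x → 1 ≤ U → 3 * U ^ 2 * x < 1 →
  (∀ j, j ≤ J → |f1 (B j)| ≤ U ∧ |f2 (B j)| ≤ U) →
  |∑ j ∈ range (J + 1), f1 (B j) * x ^ j| ≤ U * x ^ (J + 1) → ∀ j, j ≤ J → B j = 0

/-- GCF. The coefficients of the product. -/
def T_GCF : Prop := ∀ (a N : ℕ) (P : ℤ[X]) (w : Fin N → ℤ√2), P.natDegree ≤ a →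
  (∀ k, |P.coeff k| ≤ (a.choose k : ℤ)) → P.coeff 0 = 1 →
  (GG P w).natDegree ≤ N * a ∧ (GG P w).coeff 0 = 1 ∧
  ∀ (f : ℤ√2 →+* ℝ) (ρ : ℝ), (∀ i, |f (w i)| ≤ ρ) →
    ∀ k, |f ((GG P w).coeff k)| ≤ ((N * a).choose k : ℝ) * ρ ^ k

/-- NSQ. The product is not a square. -/
def T_NSQ : Prop := ∀ (N : ℕ) (P : ℤ[X]) (w : Fin N → ℤ√2) (i₀ : Fin N),
  (∀ z : ℂ, aeval z P = 0 → ‖z‖ = 1) →
  (∃ z : ℂ, aeval z P = 0 ∧ aeval z (derivative P) ≠ 0) → w i₀ = 1 →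
  (∀ i, i ≠ i₀ → 0 < f1 (w i) ∧ f1 (w i) < 1) →
  ∀ Q : ℝ[X], Q ^ 2 ≠ (GG P w).map f1

/-- GAP. A square root with a long gap is a polynomial. -/
def T_GAP : Prop := ∀ (E : ℕ) (G : (ℤ√2)[X]) (γ : ℕ → ℤ√2), G.natDegree ≤ 2 * E →
  (∀ k, ∑ ij ∈ antidiagonal k, γ ij.1 * γ ij.2 = 4 ^ k * G.coeff k) →
  (∀ k, E < k → k ≤ 2 * E → γ k = 0) → ∃ Q : ℝ[X], Q ^ 2 = G.map f1

/-- SRS. The value of the square root of a polynomial. -/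
def T_SRS : Prop := ∀ (G : ℝ[X]) (g : ℕ → ℝ) (R x : ℝ), g 0 = 1 →
  (∀ k, ∑ ij ∈ antidiagonal k, g ij.1 * g ij.2 = G.coeff k) → (∀ k, |g k| ≤ R ^ k) → 0 < x →
  4 * R * x ≤ 1 → Summable (fun k => g k * x ^ k) ∧ 0 < ∑' k, g k * x ^ k ∧
    (∑' k, g k * x ^ k) ^ 2 = G.eval x

/-- TRC. The argument with the traces. -/
def T_TRC : Prop := ∀ (K n₀ Z : ℕ) (a : ℕ → ℤ√2) (V R ρ : ℝ), 1 ≤ K → 1 ≤ V → 1 ≤ R →
  1 ≤ ρ → ρ ^ K ≤ V → (∀ k, |f1 (a k)| ≤ V * (4 * R) ^ k) →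
  (∀ k, |f2 (a k)| ≤ (4 * R * ρ) ^ k) →
  HasSum (fun k => f1 (a k) / 4 ^ k * ((al⁻¹) ^ (2 * n₀)) ^ k) (Z * (al⁻¹) ^ (2 * K * n₀)) →
  3 * (4 * 16 ^ (2 * K) * V * R ^ (4 * K + 1) * ρ ^ (4 * K)) ^ 2 * (al⁻¹) ^ (2 * n₀) < 1 →
  ∀ k, 2 * K < k → k ≤ 4 * K → a k = 0

/-- COR. The main lemma. -/
def T_COR : Prop := ∀ (h N n₀ δ Z : ℕ) (P : ℤ[X]) (i₀ : Fin N) (n : Fin N → ℕ), 1 ≤ h →
  Even N → P.natDegree = 2 * h → P.coeff 0 = 1 →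
  (∀ k, |P.coeff k| ≤ ((2 * h).choose k : ℤ)) → (∀ z : ℂ, aeval z P = 0 → ‖z‖ = 1) →
  (∃ z : ℂ, aeval z P = 0 ∧ aeval z (derivative P) ≠ 0) → (∀ i, Odd (n i)) → n i₀ = n₀ →
  (∀ i, i ≠ i₀ → n₀ < n i ∧ n i ≤ n₀ + δ) →
  ∏ i, (al ^ (2 * h * n i) * aeval ((al⁻¹) ^ (2 * n i)) P) = (Z : ℝ) ^ 2 →
  al ^ (2 * n₀) ≤ 3 * UU (h * N) δ ^ 2

/-! ### 2. Cyclotomic polynomials and boxes -/

/-- LCY. The primitive parts are values of cyclotomic polynomials. -/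
def T_LCY : Prop := ∀ u L : ℕ → ℕ, PellL u L → L 1 = 1 ∧
  ∀ r, 2 ≤ r → (L r : ℝ) = be ^ r.totient * eval (al / be) (cyclotomic r ℝ)

/-- FMN. The product over the divisors. -/
def T_FMN : Prop := ∀ u L : ℕ → ℕ, PellL u L → ∀ (m : ℕ) (S : Finset ℕ), 3 ≤ m →
  (∀ q ∈ S, q.Prime ∧ Odd q ∧ ¬ q ∣ m) →
  ∏ A ∈ S.powerset, (L (m * ∏ q ∈ A, q) : ℝ) =
    al ^ (m.totient * ∏ q ∈ S, q) * aeval ((al⁻¹) ^ (2 * ∏ q ∈ S, q)) (PP m)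

/-- CYP. The polynomial `Φ_m(-z)`. -/
def T_CYP : Prop := ∀ m : ℕ, 3 ≤ m → (PP m).natDegree = m.totient ∧ Even m.totient ∧
  (PP m).coeff 0 = 1 ∧ (∀ k, |(PP m).coeff k| ≤ (m.totient.choose k : ℤ)) ∧
  (∀ z : ℂ, aeval z (PP m) = 0 → ‖z‖ = 1) ∧
  ∃ z : ℂ, aeval z (PP m) = 0 ∧ aeval z (derivative (PP m)) ≠ 0

/-- BOX. A box of squares. -/
def T_BOX : Prop := ∀ u L : ℕ → ℕ, PellL u L → ∀ (m t : ℕ) (q : Fin t → Bool → ℕ), 3 ≤ m →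
  1 ≤ t → (∀ l b, (q l b).Prime ∧ Odd (q l b) ∧ ¬ q l b ∣ m) →
  (∀ l, q l false < q l true) →
  (∀ ε : Fin t → Bool, Function.Injective (fun l => q l (ε l)) ∧
    IsSquare (L (m * ∏ l, q l (ε l)))) →
  al ^ (2 * ∏ l, q l false) ≤
    3 * UU (m.totient * 2 ^ (t - 1)) ((∏ l, q l true) - (∏ l, q l false)) ^ 2

/-- NBX. There is no narrow box of squares. -/
def T_NBX : Prop := ∀ t : ℕ, 1 ≤ t → ∃ M₀ : ℕ, ∀ u L : ℕ → ℕ, PellL u L → ∀ (m : ℕ)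
  (q : Fin t → Bool → ℕ), M₀ ≤ m → (∀ l b, (q l b).Prime ∧ m ^ 2 < q l b) →
  (∀ l, q l false < q l true) →
  (∀ l, 64 * t * 2 ^ t * m * (q l true - q l false) ≤ q l false) →
  ¬ ∀ ε : Fin t → Bool, Function.Injective (fun l => q l (ε l)) ∧
    IsSquare (L (m * ∏ l, q l (ε l)))

/-! ### 3. Counting -/

/-- HYP. Sets without boxes are small. -/
def T_HYP : Prop := ∀ (t : ℕ) (I : Fin t → Finset ℕ) (X : Finset (Fin t → ℕ)) (H : ℕ),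
  X ⊆ Fintype.piFinset I → (∀ l, H ≤ (I l).card) →
  (¬ ∃ a b : Fin t → ℕ, (∀ l, a l ≠ b l) ∧
    ∀ ε : Fin t → Bool, (fun l => if ε l then b l else a l) ∈ X) →
  (X.card : ℝ) ^ (2 ^ t) * H ≤ t * (∏ l, ((I l).card : ℝ)) ^ (2 ^ t)

/-- the index of the cell of `q` -/
noncomputable def cel (η : ℝ) (q : ℕ) : ℕ := ⌊Real.log q / Real.log (1 + η)⌋₊

/-- the cell with the index `a` -/
noncomputable def Cl (η : ℝ) (a : ℕ) : Finset ℕ :=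
  (Icc 1 ⌊(1 + η) ^ (a + 1)⌋₊).filter fun q => cel η q = a

/-- CEL. The cells. -/
def T_CEL : Prop := ∀ η : ℝ, 0 < η → η ≤ 1 →
  (∀ q : ℕ, 1 ≤ q → q ∈ Cl η (cel η q)) ∧
  (∀ a q q' : ℕ, q ∈ Cl η a → q' ∈ Cl η a → (q' : ℝ) < q * (1 + η)) ∧
  ∀ a q : ℕ, q ∈ Cl η a → η * q / 2 - 1 ≤ ((Cl η a).card : ℝ)

/-- DVT. The number of the tuples with bounded product. -/
def T_DVT : Prop := ∀ (t : ℕ) (y : ℝ), 1 ≤ y →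
  {q : Fin t → ℕ | (∀ l, 1 ≤ q l) ∧ ((∏ l, q l : ℕ) : ℝ) ≤ y}.Finite ∧
  ({q : Fin t → ℕ | (∀ l, 1 ≤ q l) ∧ ((∏ l, q l : ℕ) : ℝ) ≤ y}.ncard : ℝ) ≤
    y * (1 + Real.log y) ^ t

/-- PTN. The partition into cells. -/
def T_PTN : Prop := ∀ (t : ℕ) (η y ρ : ℝ) (X : Finset (Fin t → ℕ)), 0 < η → η ≤ 1 → 1 ≤ y →
  0 ≤ ρ → (∀ q ∈ X, (∀ l, 1 ≤ q l) ∧ ((∏ l, q l : ℕ) : ℝ) ≤ y) →
  (∀ a : Fin t → ℕ, ((X.filter fun q => ∀ l, cel η (q l) = a l).card : ℝ) ≤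
    ρ * ∏ l, ((Cl η (a l)).card : ℝ)) →
  (X.card : ℝ) ≤ ρ * ((1 + η) ^ t * y * (1 + Real.log ((1 + η) ^ t * y)) ^ t)

/-- the tuples of large prime numbers with a square -/
def TS (L : ℕ → ℕ) (m t : ℕ) (y : ℝ) : Set (Fin t → ℕ) :=
  {q | StrictMono q ∧ (∀ l, (q l).Prime ∧ m ^ 2 < q l) ∧ ((∏ l, q l : ℕ) : ℝ) ≤ y ∧
    IsSquare (L (m * ∏ l, q l))}

/-- CNT. The number of the tuples. -/
def T_CNT : Prop := ∀ t : ℕ, 1 ≤ t → ∃ (C : ℝ) (M₀ : ℕ), 0 < C ∧ 1 ≤ M₀ ∧ ∀ u L : ℕ → ℕ,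
  PellL u L → ∀ (m : ℕ) (y : ℝ), M₀ ≤ m → 1 ≤ y → (TS L m t y).Finite ∧
  ((TS L m t y).ncard : ℝ) ≤
    C * y * (1 + Real.log y) ^ t * (m : ℝ) ^ (-(1 / 2 ^ t : ℝ))

/-- `r` splits with exponent `c` at `x` -/
def Spl (c x : ℝ) (r : ℕ) : Prop := ∃ m n : ℕ, r = m * n ∧ x ^ c ≤ m ∧ 1 < n ∧
  Squarefree n ∧ ∀ p : ℕ, p.Prime → p ∣ n → m ^ 2 < p

open Classical in
/-- SUM. Few squares with a splitting. -/
def T_SUM : Prop := ∀ u L : ℕ → ℕ, PellL u L → ∀ c η : ℝ, 0 < c → c < 1 → 0 < η →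
  ∃ X : ℕ, ∀ x : ℕ, X ≤ x →
    (((Icc 1 x).filter fun r => Spl c x r ∧ IsSquare (L r)).card : ℝ) ≤ η * x

/-! ### 4. The density lemma -/

/-- the prime numbers in `(u, y]` -/
noncomputable def PR (u y : ℝ) : Finset ℕ := (Ioc ⌊u⌋₊ ⌊y⌋₊).filter Nat.Prime

/-- the part of `r` made of the primes in `B` -/
noncomputable def pt (B : Finset ℕ) (r : ℕ) : ℕ := ∏ p ∈ B, p ^ r.factorization p

/-- the Euler product over `B` -/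
noncomputable def ZB (B : Finset ℕ) : ℝ := ∏ p ∈ B, (1 - 1 / (p : ℝ))⁻¹

/-- `a` is made of primes in `B` -/
def Sm (B : Finset ℕ) (a : ℕ) : Prop := a ≠ 0 ∧ ∀ p : ℕ, p.Prime → p ∣ a → p ∈ B

/-- MR1. Mertens, first form. -/
def T_MR1 : Prop := ∃ C : ℝ, 0 < C ∧ ∀ y : ℝ, 1 ≤ y →
  ∑ p ∈ PR 0 y, Real.log p / ((p : ℝ) - 1) ≤ Real.log y + C

/-- MR2. Mertens, products. -/
def T_MR2 : Prop := ∃ C : ℝ, 0 < C ∧ (∀ y : ℝ, 2 ≤ y → ZB (PR 0 y) ≤ C * Real.log y) ∧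
  ∀ z y : ℝ, 2 ≤ z → z ≤ y → ZB (PR z y) ≤ C * (Real.log y / Real.log z)

/-- CHB. Chebyshev's upper bound. -/
def T_CHB : Prop := ∃ C : ℝ, 0 < C ∧ ∀ x : ℝ, 0 ≤ x → ∑ p ∈ PR 0 x, Real.log p ≤ C * x

/-- ZBS. Finite sums are at most the Euler product. -/
def T_ZBS : Prop := ∀ B S : Finset ℕ, (∀ p ∈ B, p.Prime) → (∀ a ∈ S, Sm B a) →
  ∑ a ∈ S, 1 / (a : ℝ) ≤ ZB B

open Classical in
/-- ZBL. The sum over the small numbers. -/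
def T_ZBL : Prop := ∀ (B : Finset ℕ) (Y : ℝ), (∀ p ∈ B, p.Prime) → 1 < Y →
  ZB B * (1 - (∑ p ∈ B, Real.log p / ((p : ℝ) - 1)) / Real.log Y) ≤
    ∑ a ∈ (Icc 1 ⌊Y⌋₊).filter (Sm B), 1 / (a : ℝ)

/-- good numbers: no prime factor in `(y ^ (1/16), y]`, at most `y ^ (1/4)` -/
def Gd (y : ℝ) (a : ℕ) : Prop :=
  (∀ p ∈ PR (y ^ (1 / 16 : ℝ)) y, ¬ p ∣ a) ∧ (a : ℝ) ≤ y ^ (1 / 4 : ℝ)

/-- GDJ. Good numbers have a positive share. -/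
def T_GDJ : Prop := ∃ c y₀ : ℝ, 0 < c ∧ c < 1 ∧ ∀ (u y : ℝ) (S : Finset ℕ), y₀ ≤ y → 0 ≤ u →
  u ≤ y ^ (1 / 16 : ℝ) → (∀ a ∈ S, Sm (PR u y) a ∧ ¬ Gd y a) →
  ∑ a ∈ S, 1 / (a : ℝ) ≤ (1 - c) * ZB (PR u y)

open Classical in
/-- IND. Independence of the parts. -/
def T_IND : Prop := ∀ (J x : ℕ) (B : Fin J → Finset ℕ) (A : Fin J → Set ℕ) (s : Fin J → ℝ),
  (∀ j, ∀ p ∈ B j, p.Prime ∧ p ≤ x) → (∀ i j, i ≠ j → Disjoint (B i) (B j)) →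
  (∀ j (S : Finset ℕ), (∀ a ∈ S, Sm (B j) a ∧ a ∈ A j) → ∑ a ∈ S, 1 / (a : ℝ) ≤ s j) →
  ∑ m ∈ (Icc 1 x).filter (fun m => ∀ j, pt (B j) m ∈ A j), 1 / (m : ℝ) ≤
    (∏ j, s j) * ZB (PR 0 x \ univ.biUnion B)

open Classical in
/-- LGT. The logarithm trick. -/
def T_LGT : Prop := ∃ C : ℝ, 0 < C ∧ ∀ (A : Set ℕ) (x : ℕ) (y : ℝ), 1 ≤ y → 1 ≤ x →
  (∀ m p : ℕ, 1 ≤ m → p.Prime → y < p → (m * p ∈ A ↔ m ∈ A)) →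
  (((Icc 1 x).filter (· ∈ A)).card : ℝ) * Real.log x ≤
    C * x * (1 + Real.log y) + C * x * ∑ m ∈ (Icc 1 x).filter (· ∈ A), 1 / (m : ℝ)

open Classical in
/-- SMO. Few numbers have a large smooth part. -/
def T_SMO : Prop := ∃ C : ℝ, 0 < C ∧ ∀ (x : ℕ) (y Y : ℝ), 1 ≤ y → 1 < Y →
  (((Icc 1 x).filter fun r => Y < (pt (PR 0 y) r : ℝ)).card : ℝ) * Real.log Y ≤
    x * (Real.log y + C)

open Classical in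
/-- SQF. Few numbers are divisible by the square of a large prime. -/
def T_SQF : Prop := ∀ (x : ℕ) (y : ℝ), 1 ≤ y →
  (((Icc 1 x).filter fun r => ∃ p : ℕ, p.Prime ∧ y < p ∧ p ^ 2 ∣ r).card : ℝ) ≤ 2 * x / y

open Classical in
/-- NOF. Few numbers have no prime factor in `(z, y]`. -/
def T_NOF : Prop := ∃ C : ℝ, 0 < C ∧ ∀ (x : ℕ) (z y : ℝ), 2 ≤ z → z ≤ y → y ≤ x →
  (((Icc 1 x).filter fun r => ∀ p ∈ PR z y, ¬ p ∣ r).card : ℝ) * Real.log x ≤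
    C * x * (1 + Real.log y + Real.log z * Real.log x / Real.log y)

open Classical in
/-- NGD. Few numbers have no good part. The scales are `y j`, the part number `j` is made of the
primes in `(y (j + 1), y j]`. -/
def T_NGD : Prop := ∃ C c y₀ : ℝ, 0 < C ∧ 0 < c ∧ c < 1 ∧ ∀ (J x : ℕ) (y : ℕ → ℝ),
  (∀ j, j ≤ J → y₀ ≤ y j) → (∀ j, j < J → y (j + 1) ≤ y j ^ (1 / 16 : ℝ)) → y 0 ≤ x →
  (((Icc 1 x).filter fun r => ∀ j, j < J → ¬ Gd (y j) (pt (PR (y (j + 1)) (y j)) r)).card :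
    ℝ) * Real.log x ≤ C * x * (Real.log (y 0) + (1 - c) ^ J * Real.log x)

open Classical in
/-- DEN. Almost all numbers split. -/
def T_DEN : Prop := ∀ η : ℝ, 0 < η → ∃ (c : ℝ) (X : ℕ), 0 < c ∧ c < 1 ∧ ∀ x : ℕ, X ≤ x →
  (((Icc 1 x).filter fun r => ¬ Spl c x r).card : ℝ) ≤ η * x

/-! ### 5. The theorem -/

open Classical in
/-- FIN. Density zero. -/
def T_FIN : Prop := ∀ u L : ℕ → ℕ, PellL u L → ∀ η : ℝ, 0 < η → ∃ X : ℕ, ∀ x : ℕ, X ≤ x →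
  (((Icc 1 x).filter fun r => IsSquare (L r)).card : ℝ) ≤ η * x

end Pool.Agent.H23.PL
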